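import Mathlib

/-!
# Iterated group jumps are not single group jumps

For infinite countable groups `G`, `H` and a smooth equivalence relation `E` with at least two
classes (for instance equality on a Polish space with at least two points) the iterated jump
`(E^[G])^[H]` is not Borel reducible to `E^[K]` for any countable group `K`.

Outline. The group `G ^ H` acts coordinatewise on `Z = (2 ^ G) ^ H`, inside the classes of the
iterated jump of equality on two points. A reduction to `E^[K]` yields a Borel map `φ` on `Z` such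
that each orbit of `G ^ H` is mapped into a single orbit of the countable group `K`. By the Baire
category theorem in `G ^ H × Z` there are a coordinate `h₁` and a nonempty open set on which `φ` is
generically invariant under the action of `G` on the coordinate `h₁` alone (`step2`). Since
generic orbits in `2 ^ G` are dense, `φ` identifies generic points of that open set which differ in
the coordinate `h₁` only (`step3`), and there are such points which are not equivalent.
-/

open Set Filter Topology MeasureTheory

set_option linter.unusedSectionVars false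

namespace Pool.Agent.Results.MP_9b97c3_lc.GroupJump

/-- The `G`-jump of an equivalence relation `E` on `X`: the equivalence relation on `X ^ G`
relating `α` and `β` if there is `g` with `α (g⁻¹ h) E β h` for all `h`. -/
def jump (G : Type*) [Group G] {X : Type*} (E : Setoid X) : Setoid (G → X) where
  r α β := ∃ g : G, ∀ h : G, E (α (g⁻¹ * h)) (β h)
  iseqv :=
    { refl := fun α => ⟨1, fun h => by simp⟩
      symm := by
        rintro α β ⟨g, hg⟩
        refine ⟨g⁻¹, fun h => ?_⟩
        have := hg (g * h)
        simp only [inv_mul_cancel_left] at this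
        simpa using E.symm this
      trans := by
        rintro α β γ ⟨g, hg⟩ ⟨g', hg'⟩
        refine ⟨g' * g, fun h => ?_⟩
        have h1 := hg (g'⁻¹ * h)
        have h2 := hg' h
        have h3 := E.trans h1 h2
        simpa [mul_assoc] using h3 }

/-- Borel reducibility of equivalence relations on topological spaces. -/
def BorelReducible {X Y : Type*} [TopologicalSpace X] [TopologicalSpace Y] (E : Setoid X)
    (F : Setoid Y) : Prop :=
  ∃ f : X → Y, Measurable[borel X, borel Y] f ∧ ∀ x x', E x x' ↔ F (f x) (f x')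

/-- Smooth equivalence relations: those with a Borel complete invariant in a Polish space. -/
def Smooth {X : Type*} [TopologicalSpace X] (E : Setoid X) : Prop :=
  ∃ (Z : Type) (_ : TopologicalSpace Z) (_ : PolishSpace Z) (f : X → Z),
    Measurable[borel X, borel Z] f ∧ ∀ x x', E x x' ↔ f x = f x'

section Act

variable {G H : Type*} [Group G]

/-- coordinatewise shift -/
def act (γ : H → G) (α : H → G → Bool) : H → G → Bool := fun h k => α h ((γ h)⁻¹ * k)

/-- one coordinate shift -/
def sh (g : G) (x : G → Bool) : G → Bool := fun k => x (g⁻¹ * k)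

theorem act_mul (γ δ : H → G) (α : H → G → Bool) : act (γ * δ) α = act γ (act δ α) := by
  funext h k
  simp [act, mul_assoc]

theorem act_one (α : H → G → Bool) : act (1 : H → G) α = α := by
  funext h k
  simp [act]

variable [TopologicalSpace G] [DiscreteTopology G]

theorem continuous_act : Continuous fun p : (H → G) × (H → G → Bool) => act p.1 p.2 := by
  refine continuous_pi fun h => continuous_pi fun k => ?_
  have h1 : Continuous fun q : G × (G → Bool) => q.2 (q.1⁻¹ * k) := by
    refine continuous_prod_of_discrete_left.2 fun a => ?_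
    exact continuous_apply (A := fun _ : G => Bool) (a⁻¹ * k)
  have h2 : Continuous fun p : (H → G) × (H → G → Bool) => (p.1 h, p.2 h) := by fun_prop
  exact h1.comp h2

/-- the shear map -/
def shear : (H → G) × (H → G → Bool) ≃ₜ (H → G) × (H → G → Bool) where
  toFun p := (p.1, act p.1 p.2)
  invFun p := (p.1, act (p.1⁻¹) p.2)
  left_inv p := by
    ext1
    · rfl
    · change act (p.1⁻¹) (act p.1 p.2) = p.2
      rw [← act_mul, inv_mul_cancel, act_one]
  right_inv p := by
    ext1
    · rfl
    · change act (p.1) (act (p.1⁻¹) p.2) = p.2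
      rw [← act_mul, mul_inv_cancel, act_one]
  continuous_toFun := continuous_fst.prodMk continuous_act
  continuous_invFun := by
    have h1 : Continuous fun p : (H → G) × (H → G → Bool) => (p.1⁻¹, p.2) := by
      refine Continuous.prodMk ?_ continuous_snd
      refine continuous_pi fun h => ?_
      exact (continuous_of_discreteTopology (f := fun g : G => g⁻¹)).comp
        ((continuous_apply h).comp continuous_fst)
    exact continuous_fst.prodMk (continuous_act.comp h1)

theorem isOpenMap_act : IsOpenMap fun p : (H → G) × (H → G → Bool) => act p.1 p.2 := by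
  have h1 : (fun p : (H → G) × (H → G → Bool) => act p.1 p.2) = Prod.snd ∘ shear := rfl
  rw [h1]
  exact isOpenMap_snd.comp shear.isOpenMap

theorem tendsto_act : Tendsto (fun p : (H → G) × (H → G → Bool) => act p.1 p.2)
    (residual _) (residual _) :=
  tendsto_residual_of_isOpenMap continuous_act isOpenMap_act

/-- right multiplication as a homeomorphism -/
def rmul (δ : H → G) : (H → G) × (H → G → Bool) ≃ₜ (H → G) × (H → G → Bool) where
  toFun p := (p.1 * δ, p.2)
  invFun p := (p.1 * δ⁻¹, p.2)
  left_inv p := by ext1 <;> simp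
  right_inv p := by ext1 <;> simp
  continuous_toFun := by
    refine Continuous.prodMk ?_ continuous_snd
    refine continuous_pi fun h => ?_
    exact (continuous_of_discreteTopology (f := fun g : G => g * δ h)).comp
        ((continuous_apply h).comp continuous_fst)
  continuous_invFun := by
    refine Continuous.prodMk ?_ continuous_snd
    refine continuous_pi fun h => ?_
    exact (continuous_of_discreteTopology (f := fun g : G => g * δ⁻¹ h)).comp
        ((continuous_apply h).comp continuous_fst)

theorem tendsto_rmul (δ : H → G) : Tendsto (rmul (H := H) δ) (residual _) (residual _) :=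
  tendsto_residual_of_isOpenMap (rmul δ).continuous (rmul δ).isOpenMap

end Act

theorem exists_of_ev {Y : Type*} [TopologicalSpace Y] [BaireSpace Y] {P : Y → Prop}
    (h : ∀ᶠ z in residual Y, P z) {U : Set Y} (hU : IsOpen U) (hne : U.Nonempty) :
    ∃ z ∈ U, P z := by
  have hd : Dense {z | P z} := dense_of_mem_residual h
  obtain ⟨z, hz1, hz2⟩ := hd.inter_open_nonempty U hU hne
  exact ⟨z, hz1, hz2⟩


section Main

variable {G H K : Type*} [Group G] [Countable G] [TopologicalSpace G]
  [DiscreteTopology G] [Countable H] [Countable K]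
  {W : Type*} [TopologicalSpace W] [SecondCountableTopology W] [T2Space W] [MeasurableSpace W]
  [BorelSpace W]

/-- Step 1: the Baire category theorem in the product of the acting group and the space. -/
theorem step1 (f : (H → G → Bool) → W) (hf : Measurable f) (T : K → W → W)
    (hT : ∀ k, Measurable (T k)) (hcov : ∀ (γ : H → G) α, ∃ k, f (act γ α) = T k (f α)) :
    ∃ (k : K) (γ₀ : H → G) (S : Finset H) (U : Set (H → G → Bool)), IsOpen U ∧ U.Nonempty ∧
      ∀ᶠ p in residual ((H → G) × (H → G → Bool)), (∀ h ∈ S, p.1 h = γ₀ h) → p.2 ∈ U →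
        f (act p.1 p.2) = T k (f p.2) := by
  classical
  let _ : MeasurableSpace G := borel G
  have : BorelSpace G := ⟨rfl⟩
  have hm : ∀ k, MeasurableSet {p : (H → G) × (H → G → Bool) | f (act p.1 p.2) = T k (f p.2)} := by
    intro k
    exact measurableSet_eq_fun (hf.comp continuous_act.measurable)
      ((hT k).comp (hf.comp measurable_snd))
  choose u hu hu' using fun k => (hm k).residualEq_isOpen
  have hne : ∃ k, (u k).Nonempty := by
    by_contra hcon
    push Not at hcon
    have h1 : ∀ᶠ p in residual ((H → G) × (H → G → Bool)), ∀ k,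
        ¬ f (act p.1 p.2) = T k (f p.2) := by
      rw [eventually_countable_forall]
      intro k
      filter_upwards [hu' k] with p hp
      intro h2
      have h3 : (u k) p := by
        rw [← hp]
        exact h2
      have h4 : p ∈ u k := h3
      rw [hcon k] at h4
      exact h4
    obtain ⟨p, -, hp⟩ := exists_of_ev h1 isOpen_univ univ_nonempty
    obtain ⟨k, hk⟩ := hcov p.1 p.2
    exact hp k hk
  obtain ⟨k, ⟨γ₀, α₀⟩, hp⟩ := hne
  obtain ⟨V, U, hV, hU, hγ, hα, hsub⟩ := isOpen_prod_iff.1 (hu k) γ₀ α₀ hp
  obtain ⟨S, v, hv, hsub'⟩ := isOpen_pi_iff.1 hV γ₀ hγ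
  refine ⟨k, γ₀, S, U, hU, ⟨α₀, hα⟩, ?_⟩
  filter_upwards [hu' k] with p hp h1 h2
  have h3 : p ∈ u k := by
    apply hsub
    refine ⟨hsub' ?_, h2⟩
    intro h hh
    rw [h1 h hh]
    exact (hv h hh).2
  have h4 : {p : (H → G) × (H → G → Bool) | f (act p.1 p.2) = T k (f p.2)} p := by
    rw [hp]
    exact h3
  exact h4

variable [DecidableEq H]

/-- the group element acting on one coordinate -/
def ee (h₁ : H) (g : G) : H → G := Pi.mulSingle h₁ g

theorem act_ee (h₁ : H) (g : G) (α : H → G → Bool) :
    act (ee h₁ g) α = Function.update α h₁ (sh g (α h₁)) := by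
  funext h k
  by_cases hh : h = h₁
  · subst hh
    simp [act, ee, sh]
  · simp [act, ee, hh]

/-- Step 2: on an open set, `f` is generically invariant under the action of one coordinate. -/
theorem step2 [Infinite H] (f : (H → G → Bool) → W) (hf : Measurable f) (T : K → W → W)
    (hT : ∀ k, Measurable (T k)) (hcov : ∀ (γ : H → G) α, ∃ k, f (act γ α) = T k (f α)) :
    ∃ (h₁ : H) (U : Set (H → G → Bool)), IsOpen U ∧ U.Nonempty ∧
      ∀ g, ∀ᶠ α in residual (H → G → Bool), α ∈ U → f (act (ee h₁ g) α) = f α := by
  obtain ⟨k, γ₀, S, U, hU, hUne, hk⟩ := step1 f hf T hT hcov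
  obtain ⟨h₁, hh₁⟩ := Infinite.exists_notMem_finset S
  let O : Set (H → G) := {γ | (∀ h ∈ S, γ h = γ₀ h) ∧ γ h₁ = 1}
  have hO : IsOpen O := by
    have h1 : O = (⋂ h ∈ S, {γ : H → G | γ h = γ₀ h}) ∩ {γ | γ h₁ = 1} := by
      ext γ
      simp [O]
    rw [h1]
    refine IsOpen.inter (isOpen_biInter_finset fun h _ => ?_) ?_
    · exact (isOpen_discrete ({γ₀ h} : Set G)).preimage (continuous_apply (A := fun _ : H => G) h)
    · exact (isOpen_discrete ({1} : Set G)).preimage (continuous_apply (A := fun _ : H => G) h₁)
  have hOne : O.Nonempty := by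
    refine ⟨Function.update γ₀ h₁ 1, ?_, by simp⟩
    intro h hh
    have : h ≠ h₁ := fun h2 => hh₁ (h2 ▸ hh)
    simp [this]
  let Φ : (H → G) × (H → G → Bool) → (H → G → Bool) := fun p => act p.1 p.2
  refine ⟨h₁, Φ '' (O ×ˢ U), isOpenMap_act _ (hO.prod hU), (hOne.prod hUne).image _, ?_⟩
  intro g
  have hmeas : MeasurableSet {α : H → G → Bool | f (act (ee h₁ g) α) = f α} := by
    refine measurableSet_eq_fun (hf.comp ?_) hf
    exact (continuous_act.comp (Continuous.prodMk continuous_const continuous_id)).measurable
  obtain ⟨V, hV, hV'⟩ := hmeas.compl.residualEq_isOpen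
  have hVe : V ∩ Φ '' (O ×ˢ U) = ∅ := by
    by_contra hcon
    have hcon' : (V ∩ Φ '' (O ×ˢ U)).Nonempty := nonempty_iff_ne_empty.2 hcon
    obtain ⟨_, hα, ⟨p₀, hp₀, rfl⟩⟩ := hcon'
    have hop : IsOpen (Φ ⁻¹' V ∩ (O ×ˢ U)) := (hV.preimage continuous_act).inter (hO.prod hU)
    have h1 := tendsto_act.eventually hV'
    have h2 := (tendsto_rmul (G := G) (ee h₁ g)).eventually hk
    obtain ⟨p, ⟨hp1, hp2⟩, hp3, hp4, hp5⟩ := exists_of_ev (h1.and (hk.and h2)) hop ⟨p₀, hα, hp₀⟩
    have h3 : Φ p ∈ ({α : H → G → Bool | f (act (ee h₁ g) α) = f α} : Set _)ᶜ := by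
      have : ({α : H → G → Bool | f (act (ee h₁ g) α) = f α} : Set _)ᶜ (Φ p) := by
        rw [hp3]
        exact hp1
      exact this
    apply h3
    obtain ⟨⟨hq1, hq2⟩, hq3⟩ := hp2
    have h4 := hp4 hq1 hq3
    have h5 : f (act (p.1 * ee h₁ g) p.2) = T k (f p.2) := by
      refine hp5 ?_ hq3
      intro h hh
      have hne : h ≠ h₁ := fun h2 => hh₁ (h2 ▸ hh)
      change p.1 h * ee h₁ g h = γ₀ h
      rw [hq1 h hh]
      simp [ee, hne]
    have h6 : p.1 * ee h₁ g = ee h₁ g * p.1 := by
      funext h
      by_cases hh : h = h₁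
      · subst hh
        change p.1 h * ee h g h = ee h g h * p.1 h
        rw [hq2]
        simp
      · simp [ee, hh]
    change f (act (ee h₁ g) (act p.1 p.2)) = f (act p.1 p.2)
    rw [← act_mul, ← h6, h5, h4]
  filter_upwards [hV'] with α hα hαU
  by_contra hcon
  have h1 : α ∈ V := by
    have h2 : V α := by
      rw [← hα]
      exact hcon
    exact h2
  have h2 : α ∈ V ∩ Φ '' (O ×ˢ U) := ⟨h1, hαU⟩
  rw [hVe] at h2
  exact h2

omit [TopologicalSpace G] [DiscreteTopology G] [Countable G] in
theorem exists_disjoint_translate [Infinite G] (D D' : Finset G) :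
    ∃ g : G, ∀ k ∈ D, g⁻¹ * k ∉ D' := by
  classical
  obtain ⟨g, hg⟩ := Infinite.exists_notMem_finset (Finset.image₂ (fun k l => k * l⁻¹) D D')
  refine ⟨g, fun k hk hl => hg ?_⟩
  rw [Finset.mem_image₂]
  exact ⟨k, hk, g⁻¹ * k, hl, by simp⟩

omit [TopologicalSpace G] [DiscreteTopology G] in
/-- generic points have dense orbits under the shift -/
theorem dense_orbit [Infinite G] : ∀ᶠ x in residual (G → Bool),
    ∀ V : Set (G → Bool), IsOpen V → V.Nonempty → ∃ g, sh g x ∈ V := by
  classical
  have h1 : ∀ᶠ x in residual (G → Bool), ∀ D A : Finset G, ∃ g, ∀ k ∈ D,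
      x (g⁻¹ * k) = decide (k ∈ A) := by
    rw [eventually_countable_forall]
    intro D
    rw [eventually_countable_forall]
    intro A
    refine residual_of_dense_open ?_ ?_
    · have : {x : G → Bool | ∃ g, ∀ k ∈ D, x (g⁻¹ * k) = decide (k ∈ A)} =
          ⋃ g, ⋂ k ∈ D, {x : G → Bool | x (g⁻¹ * k) = decide (k ∈ A)} := by
        ext x
        simp
      rw [this]
      refine isOpen_iUnion fun g => isOpen_biInter_finset fun k _ => ?_
      exact (isOpen_discrete ({decide (k ∈ A)} : Set Bool)).preimage
        (continuous_apply (A := fun _ : G => Bool) (g⁻¹ * k))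
    · rw [dense_iff_inter_open]
      intro V hV ⟨x, hx⟩
      obtain ⟨D', v, hv, hsub⟩ := isOpen_pi_iff.1 hV x hx
      obtain ⟨g, hg⟩ := exists_disjoint_translate D D'
      refine ⟨fun l => if l ∈ D' then x l else decide (g * l ∈ A), hsub ?_, g, ?_⟩
      · intro l hl
        have hl' : l ∈ D' := hl
        simp only [hl', if_true]
        exact (hv l hl').2
      · intro k hk
        simp [hg k hk]
  filter_upwards [h1] with x hx V hV ⟨y, hy⟩
  obtain ⟨D, v, hv, hsub⟩ := isOpen_pi_iff.1 hV y hy
  obtain ⟨g, hg⟩ := hx D (D.filter fun k => y k = true)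
  refine ⟨g, hsub ?_⟩
  intro k hk
  have hk' : k ∈ D := hk
  have h2 : sh g x k = y k := by
    rw [sh, hg k hk']
    simp [hk']
  rw [h2]
  exact (hv k hk').2

omit [TopologicalSpace G] [DiscreteTopology G] [Countable G] in
theorem not_isOpen_singleton [Infinite G] (x : G → Bool) : ¬ IsOpen ({x} : Set (G → Bool)) := by
  classical
  intro h
  obtain ⟨D, v, hv, hsub⟩ := isOpen_pi_iff.1 h x rfl
  obtain ⟨k, hk⟩ := Infinite.exists_notMem_finset D
  have h1 : Function.update x k (!(x k)) ∈ ({x} : Set (G → Bool)) := by
    apply hsub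
    intro l hl
    have hl' : l ∈ D := hl
    have hne : l ≠ k := fun h2 => hk (h2 ▸ hl')
    simp only [Function.update_of_ne hne]
    exact (hv l hl').2
  have h2 := congrFun (mem_singleton_iff.1 h1) k
  simp at h2

/-- Step 3: a Borel map for which the image of each class under the coordinatewise shifts is
contained in countably many prescribed values identifies two inequivalent points. -/
theorem step3 [Infinite G] [Infinite H] (f : (H → G → Bool) → W) (hf : Measurable f) (T : K → W → W)
    (hT : ∀ k, Measurable (T k)) (hcov : ∀ (γ : H → G) α, ∃ k, f (act γ α) = T k (f α)) :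
    ∃ (h₁ : H) (α β : H → G → Bool), f α = f β ∧ ∀ h g, β h₁ ≠ sh g (α h) := by
  obtain ⟨h₁, U, hU, hUne, hinv⟩ := step2 f hf T hT hcov
  -- open approximations
  obtain ⟨B, hBc, -, hB⟩ := TopologicalSpace.exists_countable_basis W
  have : Countable B := hBc.to_subtype
  choose u hu hu' using fun b : B => ((hB.isOpen b.2).measurableSet.preimage hf).residualEq_isOpen
  have hC : ∀ᶠ α in residual (H → G → Bool), ∀ b : B, f α ∈ b.1 ↔ α ∈ u b := by
    rw [eventually_countable_forall]
    intro b
    filter_upwards [hu' b] with α hα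
    exact iff_of_eq hα
  have hCg : ∀ᶠ α in residual (H → G → Bool), ∀ g, ∀ b : B,
      f (act (ee h₁ g) α) ∈ b.1 ↔ act (ee h₁ g) α ∈ u b := by
    rw [eventually_countable_forall]
    intro g
    have h1 : Tendsto (fun α : H → G → Bool => act (ee h₁ g) α) (residual _) (residual _) := by
      refine tendsto_residual_of_isOpenMap
        (continuous_act.comp (Continuous.prodMk continuous_const continuous_id)) ?_
      have h2 : (fun α : H → G → Bool => act (ee h₁ g) α) =
          fun α => (fun p : (H → G) × (H → G → Bool) => act p.1 p.2) (ee h₁ g, α) := rfl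
      let e : (H → G → Bool) ≃ₜ (H → G → Bool) :=
        { toFun := fun α => act (ee h₁ g) α
          invFun := fun α => act (ee h₁ g)⁻¹ α
          left_inv := fun α => by
            change act (ee h₁ g)⁻¹ (act (ee h₁ g) α) = α
            rw [← act_mul, inv_mul_cancel, act_one]
          right_inv := fun α => by
            change act (ee h₁ g) (act (ee h₁ g)⁻¹ α) = α
            rw [← act_mul, mul_inv_cancel, act_one]
          continuous_toFun := continuous_act.comp (Continuous.prodMk continuous_const continuous_id)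
          continuous_invFun :=
            continuous_act.comp (Continuous.prodMk continuous_const continuous_id) }
      exact e.isOpenMap
    exact h1.eventually hC
  have hI : ∀ᶠ α in residual (H → G → Bool), ∀ g, α ∈ U → f (act (ee h₁ g) α) = f α := by
    rw [eventually_countable_forall]
    exact hinv
  have hD : ∀ᶠ α in residual (H → G → Bool),
      ∀ V : Set (G → Bool), IsOpen V → V.Nonempty → ∃ g, sh g (α h₁) ∈ V := by
    have h1 : Tendsto (fun α : H → G → Bool => α h₁) (residual _) (residual _) :=
      tendsto_residual_of_isOpenMap (continuous_apply (A := fun _ : H => G → Bool) h₁)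
        (isOpenMap_eval (X := fun _ : H => G → Bool) h₁)
    exact h1.eventually dense_orbit
  -- the product space
  have hfst : Tendsto (Prod.fst : (H → G → Bool) × (G → Bool) → (H → G → Bool))
      (residual _) (residual _) :=
    tendsto_residual_of_isOpenMap continuous_fst isOpenMap_fst
  have hcu : Continuous fun p : (H → G → Bool) × (G → Bool) => Function.update p.1 h₁ p.2 :=
    continuous_fst.update h₁ continuous_snd
  have hupd : Tendsto (fun p : (H → G → Bool) × (G → Bool) => Function.update p.1 h₁ p.2)
      (residual _) (residual _) := by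
    refine tendsto_residual_of_isOpenMap hcu ?_
    let e : (H → G → Bool) × (G → Bool) ≃ₜ (H → G → Bool) × (G → Bool) :=
      { toFun := fun p => (Function.update p.1 h₁ p.2, p.1 h₁)
        invFun := fun p => (Function.update p.1 h₁ p.2, p.1 h₁)
        left_inv := fun p => by simp
        right_inv := fun p => by simp
        continuous_toFun := hcu.prodMk
          ((continuous_apply (A := fun _ : H => G → Bool) h₁).comp continuous_fst)
        continuous_invFun := hcu.prodMk
          ((continuous_apply (A := fun _ : H => G → Bool) h₁).comp continuous_fst) }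
    have h1 : (fun p : (H → G → Bool) × (G → Bool) => Function.update p.1 h₁ p.2) =
        Prod.fst ∘ e := rfl
    rw [h1]
    exact isOpenMap_fst.comp e.isOpenMap
  have hne : ∀ᶠ p in residual ((H → G → Bool) × (G → Bool)), ∀ h g, p.2 ≠ sh g (p.1 h) := by
    rw [eventually_countable_forall]
    intro h
    rw [eventually_countable_forall]
    intro g
    have hcs : Continuous (sh g : (G → Bool) → (G → Bool)) :=
      continuous_pi fun k => continuous_apply (A := fun _ : G => Bool) (g⁻¹ * k)
    have hcl : IsClosed {p : (H → G → Bool) × (G → Bool) | p.2 = sh g (p.1 h)} :=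
      isClosed_eq continuous_snd
        (hcs.comp ((continuous_apply (A := fun _ : H => G → Bool) h).comp continuous_fst))
    refine residual_of_dense_open hcl.isOpen_compl ?_
    change Dense ({p : (H → G → Bool) × (G → Bool) | p.2 = sh g (p.1 h)}ᶜ)
    rw [← interior_eq_empty_iff_dense_compl]
    by_contra hcon
    obtain ⟨⟨α, b⟩, hp⟩ := nonempty_iff_ne_empty.2 hcon
    obtain ⟨V₁, V₂, h1, h2, h3, h4, hsub⟩ := isOpen_prod_iff.1 isOpen_interior α b hp
    have h5 : V₂ = {b} := by
      ext c
      constructor
      · intro hc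
        have h6 := interior_subset (hsub (mk_mem_prod h3 hc))
        have h7 := interior_subset (hsub (mk_mem_prod h3 h4))
        change c = sh g (α h) at h6
        change b = sh g (α h) at h7
        rw [mem_singleton_iff, h6, h7]
      · intro hc
        rw [mem_singleton_iff.1 hc]
        exact h4
    rw [h5] at h2
    exact not_isOpen_singleton b h2
  have key := (hfst.eventually (hC.and (hCg.and (hI.and hD)))).and ((hupd.eventually hC).and hne)
  obtain ⟨α₀, hα₀⟩ := hUne
  obtain ⟨⟨α, b⟩, hαU, ⟨hC1, hC2, hI1, hD1⟩, hC3, hne1⟩ := exists_of_ev key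
    (hU.preimage continuous_fst) ⟨(α₀, α₀ h₁), hα₀⟩
  simp only at hC1 hC2 hI1 hD1 hC3 hne1
  refine ⟨h₁, α, Function.update α h₁ b, ?_, fun h g => ?_⟩
  · by_contra hcon
    obtain ⟨V, hV, hV1, hV2⟩ : ∃ V ∈ B, f (Function.update α h₁ b) ∈ V ∧ f α ∉ V := by
      have h1 : IsOpen ({f α}ᶜ : Set W) := isOpen_compl_singleton
      obtain ⟨V, hV, hV1, hV2⟩ := hB.exists_subset_of_mem_open
        (show f (Function.update α h₁ b) ∈ ({f α}ᶜ : Set W) from fun h => hcon h.symm) h1
      exact ⟨V, hV, hV1, fun h => hV2 h rfl⟩
    have h2 : Function.update α h₁ b ∈ u ⟨V, hV⟩ := (hC3 ⟨V, hV⟩).1 hV1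
    have h3 : IsOpen {c : G → Bool | Function.update α h₁ c ∈ u ⟨V, hV⟩} :=
      (hu ⟨V, hV⟩).preimage (hcu.comp (Continuous.prodMk continuous_const continuous_id))
    obtain ⟨g, hg⟩ := hD1 _ h3 ⟨b, h2⟩
    have h4 : act (ee h₁ g) α ∈ u ⟨V, hV⟩ := by
      rw [act_ee]
      exact hg
    have h5 := (hC2 g ⟨V, hV⟩).2 h4
    rw [hI1 g hαU] at h5
    exact hV2 h5
  · rw [Function.update_self]
    exact hne1 h g

end Main

/-- **Main theorem.** Let `G` and `H` be infinite countable groups and let `E` be a smooth
equivalence relation with at least two classes on a Polish space. Then the `H`-jump of the `G`-jump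
of `E` is not Borel reducible to the `K`-jump of `E`, for any countable group `K`. -/
theorem result {G H K X : Type*} [Group G] [Countable G] [Infinite G] [Group H] [Countable H]
    [Infinite H] [Group K] [Countable K] [TopologicalSpace X] [PolishSpace X] (E : Setoid X)
    (hE : Smooth E) (h2 : ∃ x y, ¬ E x y) :
    ¬ BorelReducible (jump H (jump G E)) (jump K E) := by
  classical
  rintro ⟨f, hf, hred⟩
  obtain ⟨Y, _, _, q, hq, hqE⟩ := hE
  obtain ⟨x₀, x₁, hx⟩ := h2
  let _ : TopologicalSpace G := ⊥
  have : DiscreteTopology G := ⟨rfl⟩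
  let _ : MeasurableSpace X := borel X
  have : BorelSpace X := ⟨rfl⟩
  let _ : MeasurableSpace Y := borel Y
  have : BorelSpace Y := ⟨rfl⟩
  have e1 : borel (H → G → X) = MeasurableSpace.pi := BorelSpace.measurable_eq.symm
  have e2 : borel (K → X) = MeasurableSpace.pi := BorelSpace.measurable_eq.symm
  rw [e1, e2] at hf
  let ι : (H → G → Bool) → (H → G → X) := fun α h k => if α h k then x₁ else x₀
  have hι : Continuous ι := by
    refine continuous_pi fun h => continuous_pi fun k => ?_
    have h3 : Continuous fun α : H → G → Bool => α h k := by fun_prop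
    exact (continuous_of_discreteTopology (f := fun b : Bool => if b then x₁ else x₀)).comp h3
  let φ : (H → G → Bool) → (K → Y) := fun α k => q (f (ι α) k)
  have hφ : Measurable φ := by
    refine measurable_pi_lambda _ fun k => ?_
    exact hq.comp ((measurable_pi_apply k).comp (hf.comp hι.measurable))
  let T : K → (K → Y) → (K → Y) := fun k w l => w (k⁻¹ * l)
  have hT : ∀ k, Measurable (T k) := fun k =>
    measurable_pi_lambda _ fun l => measurable_pi_apply _
  have hιE : ∀ a b : Bool, E (if a then x₁ else x₀) (if b then x₁ else x₀) ↔ a = b := by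
    have hx' : ¬ E x₁ x₀ := fun h => hx (E.symm h)
    intro a b
    cases a <;> cases b <;> simp [hx, hx']
  have hjump : ∀ α β : H → G → Bool, jump H (jump G E) (ι α) (ι β) ↔
      ∃ h₀ : H, ∀ h, ∃ g : G, β h = sh g (α (h₀⁻¹ * h)) := by
    intro α β
    constructor
    · rintro ⟨h₀, hh⟩
      refine ⟨h₀, fun h => ?_⟩
      obtain ⟨g, hg⟩ := hh h
      refine ⟨g, ?_⟩
      funext k
      exact ((hιE _ _).1 (hg k)).symm
    · rintro ⟨h₀, hh⟩
      refine ⟨h₀, fun h => ?_⟩
      obtain ⟨g, hg⟩ := hh h
      refine ⟨g, fun k => ?_⟩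
      refine (hιE _ _).2 ?_
      rw [hg]
      rfl
  have hφE : ∀ α β : H → G → Bool, (∃ h₀ : H, ∀ h, ∃ g : G, β h = sh g (α (h₀⁻¹ * h))) ↔
      ∃ k, φ β = T k (φ α) := by
    intro α β
    rw [← hjump, hred]
    constructor
    · rintro ⟨k, hk⟩
      refine ⟨k, ?_⟩
      funext l
      exact ((hqE _ _).1 (hk l)).symm
    · rintro ⟨k, hk⟩
      refine ⟨k, fun l => (hqE _ _).2 ?_⟩
      exact (congrFun hk l).symm
  have hcov : ∀ (γ : H → G) α, ∃ k, φ (act γ α) = T k (φ α) := by
    intro γ α
    rw [← hφE]
    refine ⟨1, fun h => ⟨γ h, ?_⟩⟩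
    rw [inv_one, one_mul]
    rfl
  obtain ⟨h₁, α, β, h3, h4⟩ := step3 φ hφ T hT hcov
  have h5 : ∃ k, φ β = T k (φ α) := by
    refine ⟨1, ?_⟩
    rw [← h3]
    funext l
    simp [T]
  rw [← hφE] at h5
  obtain ⟨h₀, hh⟩ := h5
  obtain ⟨g, hg⟩ := hh h₁
  exact h4 _ _ hg

end Pool.Agent.Results.MP_9b97c3_lc.GroupJump
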